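import Pool.Agent.V7H42.Fan.Ident

set_option autoImplicit false

namespace Pool.Agent.V7H42.Fan

open TopologicalSpace Set Metric Filter Topology

/-- The equivalence relation on `Z × [0,1]` which identifies all points `(z, 1)` with each other
(and no other points). -/
def coneSetoid (Z : Type) : Setoid (Z × unitInterval) where
  r p q := p = q ∨ (p.2 = 1 ∧ q.2 = 1)
  iseqv :=
    { refl := fun _ => Or.inl rfl
      symm := by
        rintro p q (rfl | h)
        · exact Or.inl rfl
        · exact Or.inr h.symm
      trans := by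
        rintro p q s (rfl | h) (rfl | h')
        · exact Or.inl rfl
        · exact Or.inr h'
        · exact Or.inr h
        · exact Or.inr ⟨h.1, h'.2⟩ }

/-- The cone `Z × [0,1] / (Z × {1})`, with the quotient topology. -/
abbrev Cone (Z : Type) [TopologicalSpace Z] : Type := Quotient (coneSetoid Z)

/-- `C(M)` is a retract of `2^M`: there is a continuous map `r` from the space `2^M` of nonempty
compact subsets of `M` (with the Vietoris topology) to itself with connected values which fixes
the connected sets. -/
def RetractsOntoSubcontinua (M : Type) [TopologicalSpace M] : Prop :=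
  ∃ r : NonemptyCompacts M → NonemptyCompacts M, Continuous r ∧
    (∀ A, IsConnected (r A : Set M)) ∧ ∀ A : NonemptyCompacts M, IsConnected (A : Set M) → r A = A

/-! ### Embedding a compact totally disconnected metrizable space into the line -/

theorem continuous_cantorFunction : Continuous (Cardinal.cantorFunction (1 / 3 : ℝ)) := by
  unfold Cardinal.cantorFunction
  refine continuous_tsum (u := fun n : ℕ => (1 / 3 : ℝ) ^ n) ?_ ?_ ?_
  · intro n
    unfold Cardinal.cantorFunctionAux
    have : Continuous fun b : Bool => (cond b ((1 / 3 : ℝ) ^ n) 0) := continuous_of_discreteTopology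
    exact this.comp (continuous_apply n)
  · exact summable_geometric_of_lt_one (by norm_num) (by norm_num)
  · intro n f
    unfold Cardinal.cantorFunctionAux
    cases f n
    · simp
    · simp

theorem exists_embedding (Z : Type) [TopologicalSpace Z] [CompactSpace Z] [T2Space Z]
    [SecondCountableTopology Z] [TotallyDisconnectedSpace Z] :
    ∃ φ : Z → ℝ, Continuous φ ∧ Function.Injective φ ∧ ∀ z, φ z ∈ Icc (-1 : ℝ) 1 := by
  classical
  have hc : Countable (Clopens Z) := Clopens.countable_iff_secondCountable.2 inferInstance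
  have : Nonempty (Clopens Z) := ⟨⊤⟩
  obtain ⟨e, he⟩ := exists_surjective_nat (Clopens Z)
  let g : Z → ℕ → Bool := fun z n => decide (z ∈ e n)
  have hg : Continuous g := by
    refine continuous_pi fun n => ?_
    have h1 : IsClopen (e n : Set Z) := (e n).isClopen
    rw [continuous_discrete_rng]
    intro b
    cases b
    · have : (fun z => g z n) ⁻¹' {false} = (e n : Set Z)ᶜ := by
        ext z; simp [g]
      rw [this]; exact h1.compl.isOpen
    · have : (fun z => g z n) ⁻¹' {true} = (e n : Set Z) := by
        ext z; simp [g]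
      rw [this]; exact h1.isOpen
  have hinj : Function.Injective g := by
    intro x y hxy
    by_contra hne
    obtain ⟨U, hU, hxU, hyU⟩ := exists_isClopen_of_totally_separated hne
    obtain ⟨n, hn⟩ := he ⟨U, hU⟩
    have := congrFun hxy n
    simp only [g, hn, decide_eq_decide] at this
    exact hyU (this.1 hxU)
  let ψ : Z → ℝ := fun z => Cardinal.cantorFunction (1 / 3 : ℝ) (g z)
  have hψ : Continuous ψ := continuous_cantorFunction.comp hg
  have hψi : Function.Injective ψ :=
    (Cardinal.cantorFunction_injective (by norm_num) (by norm_num)).comp hinj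
  obtain ⟨K, hK⟩ := (isCompact_range hψ).isBounded.exists_norm_le
  have hK' : ∀ z, |ψ z| ≤ |K| := fun z => (hK _ ⟨z, rfl⟩).trans (le_abs_self K)
  refine ⟨fun z => ψ z / (|K| + 1), hψ.div_const _, ?_, ?_⟩
  · intro x y hxy
    have h0 : |K| + 1 ≠ 0 := by positivity
    apply hψi
    simpa [div_left_inj' h0] using hxy
  · intro z
    have h0 : 0 < |K| + 1 := by positivity
    have h1 := abs_le.1 (hK' z)
    constructor
    · rw [le_div_iff₀ h0]; linarith [h1.1]
    · rw [div_le_iff₀ h0]; linarith [h1.2]

section

variable {Z : Type} [TopologicalSpace Z]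

/-- the map of the cone to the plane given by a map of `Z` to the line -/
noncomputable def toPlane (φ : Z → ℝ) : Cone Z → E :=
  Quotient.lift (fun p : Z × unitInterval => ((1 - (p.2 : ℝ)) * φ p.1, 1 - (p.2 : ℝ))) (by
    rintro p q (rfl | ⟨h1, h2⟩)
    · rfl
    · simp [h1, h2])

theorem toPlane_mk (φ : Z → ℝ) (p : Z × unitInterval) :
    toPlane φ (Quotient.mk _ p) = ((1 - (p.2 : ℝ)) * φ p.1, 1 - (p.2 : ℝ)) := rfl

theorem continuous_toPlane {φ : Z → ℝ} (hφ : Continuous φ) : Continuous (toPlane φ) := by
  refine Continuous.quotient_lift ?_ _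
  fun_prop

theorem injective_toPlane {φ : Z → ℝ} (hφ : Function.Injective φ) :
    Function.Injective (toPlane φ) := by
  intro x y
  induction x using Quotient.inductionOn with | _ p =>
  induction y using Quotient.inductionOn with | _ q =>
  intro h
  rw [toPlane_mk, toPlane_mk, Prod.mk.injEq] at h
  obtain ⟨h1, h2⟩ := h
  have h3 : (p.2 : ℝ) = q.2 := by linarith
  have h4 : p.2 = q.2 := Subtype.ext h3
  apply Quotient.sound
  by_cases h5 : p.2 = 1
  · exact Or.inr ⟨h5, h4 ▸ h5⟩
  · left
    have h6 : (1 - (p.2 : ℝ)) ≠ 0 := by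
      intro h
      apply h5
      apply Subtype.ext
      show (p.2 : ℝ) = 1
      linarith
    rw [← h3] at h1
    have h7 := mul_left_cancel₀ h6 h1
    exact Prod.ext (hφ h7) h4

theorem range_toPlane (φ : Z → ℝ) : range (toPlane φ) = M₀ (range φ) := by
  ext x
  constructor
  · rintro ⟨y, rfl⟩
    induction y using Quotient.inductionOn with | _ p =>
    rw [toPlane_mk]
    exact ⟨φ p.1, ⟨p.1, rfl⟩, 1 - (p.2 : ℝ), ⟨by linarith [p.2.2.2], by linarith [p.2.2.1]⟩, rfl⟩
  · rintro ⟨_, ⟨z, rfl⟩, h, ⟨h0, h1⟩, rfl⟩
    refine ⟨Quotient.mk _ (z, ⟨1 - h, by linarith, by linarith⟩), ?_⟩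
    rw [toPlane_mk]
    simp

theorem isClosedEmbedding_toPlane [CompactSpace Z] {φ : Z → ℝ} (hφ : Continuous φ)
    (hφi : Function.Injective φ) : IsClosedEmbedding (toPlane φ) :=
  (continuous_toPlane hφ).isClosedEmbedding (injective_toPlane hφi)

/-- **The retraction for the cone.** -/
theorem retracts [CompactSpace Z] {φ : Z → ℝ} (hφ : Continuous φ)
    (hφi : Function.Injective φ) (hφ1 : ∀ z, φ z ∈ Icc (-1 : ℝ) 1)
    [TotallyDisconnectedSpace Z] : RetractsOntoSubcontinua (Cone Z) := by
  have hemb := isClosedEmbedding_toPlane hφ hφi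
  have hZ1 : range φ ⊆ Icc (-1 : ℝ) 1 := by rintro _ ⟨z, rfl⟩; exact hφ1 z
  have hZt : IsTotallyDisconnected (range φ) :=
    (hφ.isClosedEmbedding hφi).isEmbedding.isTotallyDisconnected_range.2 inferInstance
  have hmap : ∀ A : NonemptyCompacts (Cone Z),
      ((A.map (toPlane φ) hemb.continuous : NonemptyCompacts E) : Set E) ⊆ M₀ (range φ) := by
    intro A
    rw [NonemptyCompacts.coe_map, ← range_toPlane]
    exact image_subset_range _ _
  have hex : ∀ A : NonemptyCompacts (Cone Z), ∃ B : NonemptyCompacts (Cone Z),
      B.map (toPlane φ) hemb.continuous = r (A.map (toPlane φ) hemb.continuous) := by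
    intro A
    have h1 := r_subset (hmap A)
    have h2 : r (A.map (toPlane φ) hemb.continuous) ∈
        range (NonemptyCompacts.map (toPlane φ) hemb.continuous) := by
      rw [NonemptyCompacts.range_map hemb.isInducing, range_toPlane]
      exact h1
    exact h2
  choose ρ hρ using hex
  refine ⟨ρ, ?_, ?_, ?_⟩
  · rw [hemb.isEmbedding.nonemptyCompacts_map.continuous_iff]
    have e : NonemptyCompacts.map (toPlane φ) hemb.isEmbedding.continuous ∘ ρ =
        fun A => r (A.map (toPlane φ) hemb.continuous) := funext hρ
    rw [e]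
    exact (continuousOn_r hZ1).comp_continuous hemb.continuous.nonemptyCompacts_map hmap
  · intro A
    have h1 := isConnected_r (A.map (toPlane φ) hemb.continuous)
    rw [← hρ, NonemptyCompacts.coe_map] at h1
    refine ⟨(ρ A).nonempty, ?_⟩
    exact (hemb.isEmbedding.isInducing.isPreconnected_image).1 h1.isPreconnected
  · intro A hA
    have h1 : IsConnected ((A.map (toPlane φ) hemb.continuous : NonemptyCompacts E) : Set E) := by
      rw [NonemptyCompacts.coe_map]
      exact hA.image _ hemb.continuous.continuousOn
    have h2 := r_eq_self hZt (hmap A) h1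
    apply NonemptyCompacts.map_injective hemb.continuous hemb.injective
    rw [hρ, h2]

end

end Pool.Agent.V7H42.Fan
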