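import Pool.Agent.V7H42.Fan.Main

set_option autoImplicit false

namespace Pool.Agent.V7H42.Fan

open TopologicalSpace Set Metric Filter Topology

variable {Z : Set ℝ} {A : NonemptyCompacts E}

theorem isConnected_segC (p q : E) : IsConnected (segC p q : Set E) := by
  unfold segC
  rw [NonemptyCompacts.coe_map]
  exact (isConnected_Icc zero_le_one).image _ (by fun_prop)

theorem isConnected_star (p : E) (μ : ℝ) (A : NonemptyCompacts E) :
    IsConnected (star p μ A : Set E) := by
  obtain ⟨a₀, ha₀⟩ := A.nonempty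
  have hp : p ∈ star p μ A := mem_star.2 ⟨a₀, ha₀, 0, ⟨le_rfl, zero_le_one⟩, by simp⟩
  refine ⟨⟨p, hp⟩, ?_⟩
  refine isPreconnected_of_forall p ?_
  intro x hx
  rw [SetLike.mem_coe, mem_star] at hx
  obtain ⟨a, ha, t, ht, rfl⟩ := hx
  refine ⟨(fun t : ℝ => p + (t * μ) • a) '' Icc 0 1, ?_, ⟨0, by simp⟩, ⟨t, ht, rfl⟩, ?_⟩
  · rintro _ ⟨s, hs, rfl⟩
    exact mem_star.2 ⟨a, ha, s, hs, rfl⟩
  · exact isPreconnected_Icc.image _ (by fun_prop)

theorem isConnected_Rl (l z h₁ h₂ : ℝ) (A : NonemptyCompacts E) :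
    IsConnected (Rl l z h₁ h₂ A : Set E) := by
  unfold Rl R
  rw [NonemptyCompacts.coe_sup]
  obtain ⟨a₀, ha₀⟩ := A.nonempty
  refine IsConnected.union ?_ (isConnected_segC _ _) (isConnected_star _ _ _)
  refine ⟨((1 - min l 1) * h₁) • ((z, 1) : E), ?_, ?_⟩
  · rw [SetLike.mem_coe, mem_segC]
    exact ⟨0, ⟨le_rfl, zero_le_one⟩, by simp⟩
  · rw [SetLike.mem_coe, mem_star]
    exact ⟨a₀, ha₀, 0, ⟨le_rfl, zero_le_one⟩, by simp⟩

theorem isConnected_r (A : NonemptyCompacts E) : IsConnected (r A : Set E) := isConnected_Rl _ _ _ _ _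

theorem mem_r₂ {x : E} : x ∈ r₂ A ↔ ∃ a ∈ A, ∃ t : ℝ, (0 ≤ t ∧ t ≤ 1) ∧ x = t • a := by
  have h1 : ((1 : ℝ) - min 3 1) = 0 := by norm_num
  have h2 : ((3 : ℝ) - max 3 2) = 0 := by norm_num
  have h3 : max (0 : ℝ) (min 1 (3 - 1)) = 1 := by norm_num
  unfold r₂ Rl
  rw [h1, h2, h3, mem_R, mem_segC, mem_star]
  simp only [zero_mul, zero_smul, sub_zero, smul_zero, add_zero, mul_one, zero_add]
  constructor
  · rintro (⟨t, ht, rfl⟩ | h)
    · obtain ⟨a, ha⟩ := A.nonempty
      exact ⟨a, ha, 0, ⟨le_rfl, zero_le_one⟩, by simp⟩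
    · exact h
  · intro h; exact Or.inr h

theorem zero_mem_M₀ (hZ : Z.Nonempty) : (0 : E) ∈ M₀ Z := by
  obtain ⟨z, hz⟩ := hZ
  exact ⟨z, hz, 0, ⟨le_rfl, zero_le_one⟩, by simp; rfl⟩

theorem r_subset (hA : (A : Set E) ⊆ M₀ Z) : (r A : Set E) ⊆ M₀ Z := by
  by_cases h0 : (0 : E) ∈ A
  · have hr : r A = r₂ A := by unfold r; rw [lam_of_mem h0, Rl_three]
    rw [hr]
    intro x hx
    rw [SetLike.mem_coe, mem_r₂] at hx
    obtain ⟨a, ha, t, ht, rfl⟩ := hx
    exact star_M₀ (hA ha) ht.1 ht.2
  · have hp := pos_of_subset hA h0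
    have hm := hmin_pos hp
    have hM := hmin_le_hmax A
    have hM1 := hmax_le_one hA
    have hz := zmin_mem hA h0
    have hl0 := lam_nonneg hA
    have hl3 := lam_le (A := A)
    unfold r Rl
    set l := lam A
    set z := zmin A
    set m := hmin A
    set M := hmax A
    have hc1 : 0 ≤ 1 - min l 1 := by have := min_le_right l 1; linarith
    have hc1' : 1 - min l 1 ≤ 1 := by
      have : 0 ≤ min l 1 := le_min hl0 zero_le_one
      linarith
    have hc2 : 0 ≤ 3 - max l 2 := by
      have : max l 2 ≤ 3 := max_le hl3 (by norm_num)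
      linarith
    have hc2' : 3 - max l 2 ≤ 1 := by have := le_max_right l 2; linarith
    intro x hx
    rw [SetLike.mem_coe, mem_R] at hx
    set α := (1 - min l 1) * m
    set β := (3 - max l 2) * M
    have hα0 : 0 ≤ α := by positivity
    have hαM : α ≤ M := by
      calc α ≤ 1 * m := mul_le_mul_of_nonneg_right hc1' hm.le
        _ ≤ M := by linarith
    have hβ0 : 0 ≤ β := mul_nonneg hc2 (by linarith)
    have hβM : β ≤ M := by
      calc β ≤ 1 * M := mul_le_mul_of_nonneg_right hc2' (by linarith)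
        _ = M := one_mul M
    rcases hx with hx | hx
    · rw [mem_segC] at hx
      obtain ⟨t, ⟨ht0, ht1⟩, rfl⟩ := hx
      rw [← sub_smul, smul_smul, ← add_smul]
      apply smul_mem_M₀ hz
      · nlinarith
      · nlinarith
    · rw [mem_star] at hx
      obtain ⟨a, ha, t, ⟨ht0, ht1⟩, rfl⟩ := hx
      rcases le_total l 1 with hl | hl
      · have e1 : max 0 (min 1 (l - 1)) = 0 := max_eq_left (min_le_of_right_le (by linarith))
        rw [e1, mul_zero, zero_smul, add_zero]
        exact smul_mem_M₀ hz hα0 (by linarith)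
      · have e1 : α = 0 := by
          show (1 - min l 1) * m = 0
          rw [min_eq_right hl]; ring
        rw [e1, zero_smul, zero_add]
        have hμ0 : 0 ≤ max 0 (min 1 (l - 1)) := le_max_left _ _
        have hμ1 : max 0 (min 1 (l - 1)) ≤ 1 := max_le zero_le_one (min_le_left _ _)
        exact star_M₀ (hA ha) (mul_nonneg ht0 hμ0) (mul_le_one₀ ht1 hμ0 hμ1)

/-- A connected subset of the fan which contains the vertex contains the segments from the vertex to
its points. -/
theorem smul_mem_of_connected (hZ : IsTotallyDisconnected Z) (hA : (A : Set E) ⊆ M₀ Z)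
    (hc : IsConnected (A : Set E)) (h0 : (0 : E) ∈ A) {a : E} (ha : a ∈ A) {t : ℝ} (ht0 : 0 ≤ t)
    (ht1 : t ≤ 1) : t • a ∈ A := by
  by_contra hta
  have ha0 : a ≠ 0 := by rintro rfl; exact hta (by simpa using h0)
  have ht0' : 0 < t := by
    rcases ht0.lt_or_eq with h | h
    · exact h
    · exfalso; apply hta; rw [← h, zero_smul]; exact h0
  have ht1' : t < 1 := by
    rcases ht1.lt_or_eq with h | h
    · exact h
    · exfalso; apply hta; rw [h, one_smul]; exact ha
  have hapos := pos_of_mem (hA ha) ha0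
  set z := leg a with hz
  have hzZ : z ∈ Z := leg_mem (hA ha) hapos
  set k := t * a.2 with hk
  have hk0 : 0 < k := by positivity
  have hka : k < a.2 := by nlinarith
  -- the legs of the points of `A` at height `k`
  have hta' : t • a = k • ((z, 1) : E) := by
    conv_lhs => rw [eq_leg hapos, smul_smul]
  -- a neighbourhood of `z` free of legs of points at height `k`
  have hcl : IsClosed (A : Set E) := A.isCompact.isClosed
  have hopen : IsOpen ((fun w : ℝ => k • ((w, 1) : E)) ⁻¹' (A : Set E)ᶜ) :=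
    hcl.isOpen_compl.preimage (by fun_prop)
  have hzin : z ∈ (fun w : ℝ => k • ((w, 1) : E)) ⁻¹' (A : Set E)ᶜ := by
    intro h
    apply hta
    rw [hta']
    exact h
  obtain ⟨δ, hδ, hball⟩ := Metric.isOpen_iff.1 hopen z hzin
  -- gaps of `Z` on both sides of `z`
  have hgap := (isTotallyDisconnected_iff_lt (s := Z)).1 hZ
  have hc' : ∃ c, z - δ < c ∧ c < z ∧ c ∉ Z := by
    by_cases h : z - δ / 2 ∈ Z
    · obtain ⟨c, hc1, hc2⟩ := hgap _ h _ hzZ (by linarith)
      exact ⟨c, by have := hc2.1; linarith, hc2.2, hc1⟩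
    · exact ⟨_, by linarith, by linarith, h⟩
  have hd' : ∃ d, z < d ∧ d < z + δ ∧ d ∉ Z := by
    by_cases h : z + δ / 2 ∈ Z
    · obtain ⟨c, hc1, hc2⟩ := hgap _ hzZ _ h (by linarith)
      exact ⟨c, hc2.1, by have := hc2.2; linarith, hc1⟩
    · exact ⟨_, by linarith, by linarith, h⟩
  obtain ⟨c, hc1, hc2, hcZ⟩ := hc'
  obtain ⟨d, hd1, hd2, hdZ⟩ := hd'
  let U : Set E := {x | k < x.2 ∧ c * x.2 < x.1 ∧ x.1 < d * x.2}
  let V : Set E := {x | x.2 < k ∨ x.1 < c * x.2 ∨ d * x.2 < x.1}
  have o1 : IsOpen {x : E | k < x.2} := isOpen_lt continuous_const continuous_snd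
  have o2 : IsOpen {x : E | c * x.2 < x.1} :=
    isOpen_lt (continuous_const.mul continuous_snd) continuous_fst
  have o3 : IsOpen {x : E | x.1 < d * x.2} :=
    isOpen_lt continuous_fst (continuous_const.mul continuous_snd)
  have o4 : IsOpen {x : E | x.2 < k} := isOpen_lt continuous_snd continuous_const
  have o5 : IsOpen {x : E | x.1 < c * x.2} :=
    isOpen_lt continuous_fst (continuous_const.mul continuous_snd)
  have o6 : IsOpen {x : E | d * x.2 < x.1} :=
    isOpen_lt (continuous_const.mul continuous_snd) continuous_fst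
  have hU : IsOpen U := o1.inter (o2.inter o3)
  have hV : IsOpen V := o4.union (o5.union o6)
  have hcov : (A : Set E) ⊆ U ∪ V := by
    intro x hx
    rcases lt_or_ge x.2 k with h | h
    · exact Or.inr (Or.inl h)
    · have hx0 : 0 < x.2 := by linarith
      have hxl := leg_mem (hA hx) hx0
      have hx1 : x.1 = leg x * x.2 := by unfold leg; field_simp
      rcases lt_trichotomy (leg x) c with h1 | h1 | h1
      · right; right; left
        show x.1 < c * x.2
        rw [hx1]; exact mul_lt_mul_of_pos_right h1 hx0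
      · exact absurd (h1 ▸ hxl) hcZ
      · rcases lt_trichotomy (leg x) d with h2 | h2 | h2
        · rcases h.lt_or_eq with h3 | h3
          · left
            refine ⟨h3, ?_, ?_⟩
            · rw [hx1]; exact mul_lt_mul_of_pos_right h1 hx0
            · rw [hx1]; exact mul_lt_mul_of_pos_right h2 hx0
          · exfalso
            have hb : leg x ∈ ball z δ := by
              rw [Real.ball_eq_Ioo]
              exact ⟨by linarith, by linarith⟩
            apply hball hb
            show k • ((leg x, 1) : E) ∈ (A : Set E)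
            rw [h3, ← eq_leg hx0]
            exact hx
        · exact absurd (h2 ▸ hxl) hdZ
        · right; right; right
          show d * x.2 < x.1
          rw [hx1]; exact mul_lt_mul_of_pos_right h2 hx0
  have hUA : ((A : Set E) ∩ U).Nonempty := by
    refine ⟨a, ha, hka, ?_, ?_⟩
    · have hx1 : a.1 = z * a.2 := by rw [hz]; unfold leg; field_simp
      rw [hx1]; exact mul_lt_mul_of_pos_right hc2 hapos
    · have hx1 : a.1 = z * a.2 := by rw [hz]; unfold leg; field_simp
      rw [hx1]; exact mul_lt_mul_of_pos_right hd1 hapos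
  have hVA : ((A : Set E) ∩ V).Nonempty := ⟨0, h0, Or.inl hk0⟩
  obtain ⟨x, -, hxU, hxV⟩ := hc.isPreconnected U V hU hV hcov hUA hVA
  obtain ⟨h1, h2, h3⟩ := hxU
  rcases hxV with h | h | h <;> linarith

theorem r_eq_self (hZ : IsTotallyDisconnected Z) (hA : (A : Set E) ⊆ M₀ Z)
    (hc : IsConnected (A : Set E)) : r A = A := by
  by_cases h0 : (0 : E) ∈ A
  · have hr : r A = r₂ A := by unfold r; rw [lam_of_mem h0, Rl_three]
    rw [hr]
    refine NonemptyCompacts.ext ?_
    ext x
    rw [SetLike.mem_coe, mem_r₂]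
    constructor
    · rintro ⟨a, ha, t, ht, rfl⟩
      exact smul_mem_of_connected hZ hA hc h0 ha ht.1 ht.2
    · intro hx
      exact ⟨x, hx, 1, ⟨zero_le_one, le_rfl⟩, by simp⟩
  · have hp := pos_of_subset hA h0
    have hm := hmin_pos hp
    have hM := hmin_le_hmax A
    -- one leg only
    have hsub : (leg '' (A : Set E)).Subsingleton := by
      refine hZ _ ?_ (hc.isPreconnected.image leg (leg_contOn.mono hp))
      rintro _ ⟨x, hx, rfl⟩
      exact leg_mem (hA hx) (hp hx)
    have hleg : ∀ x ∈ A, leg x = zmin A := by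
      intro x hx
      obtain ⟨y, hy, h⟩ := exists_zmin hp
      rw [← h]
      exact hsub ⟨x, hx, rfl⟩ ⟨y, hy, rfl⟩
    have hzz : zmax A = zmin A := by
      obtain ⟨x, hx, h⟩ := (zcompact hp).sSup_mem (A.nonempty.image _)
      rw [zmax, ← h]
      exact hleg x hx
    have hl : lam A = 0 := by
      rw [lam_of_not h0, hzz, sub_self, zero_div]
      norm_num
    have hconn : IsPreconnected (Prod.snd '' (A : Set E)) :=
      hc.isPreconnected.image _ continuous_snd.continuousOn
    have e1 : (1 : ℝ) - min 0 1 = 1 := by norm_num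
    have e2 : (3 : ℝ) - max 0 2 = 1 := by norm_num
    have e3 : max (0 : ℝ) (min 1 (0 - 1)) = 0 := by norm_num
    refine NonemptyCompacts.ext ?_
    ext x
    unfold r Rl
    rw [hl, e1, e2, e3, one_mul, one_mul, SetLike.mem_coe, mem_R, mem_segC, mem_star]
    constructor
    · intro hx
      have key : ∀ h : ℝ, hmin A ≤ h → h ≤ hmax A → h • ((zmin A, 1) : E) ∈ A := by
        intro h h1 h2
        obtain ⟨y, hy, hy1⟩ := exists_hmin A
        obtain ⟨y', hy', hy2⟩ := exists_hmax A
        have : h ∈ Prod.snd '' (A : Set E) :=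
          hconn.Icc_subset ⟨y, hy, hy1⟩ ⟨y', hy', hy2⟩ ⟨h1, h2⟩
        obtain ⟨w, hw, rfl⟩ := this
        have := eq_leg (hp hw)
        rw [hleg w hw] at this
        rw [← this]
        exact hw
      rcases hx with ⟨t, ⟨ht0, ht1⟩, rfl⟩ | ⟨a, ha, t, ht, rfl⟩
      · rw [← sub_smul, smul_smul, ← add_smul]
        apply key
        · nlinarith
        · nlinarith
      · rw [mul_zero, zero_smul, add_zero]
        exact key _ le_rfl hM
    · intro hx
      left
      have hx1 := hmin_le hx
      have hx2 := le_hmax hx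
      have hxe : x = x.2 • ((zmin A, 1) : E) := by
        rw [← hleg x hx]; exact eq_leg (hp hx)
      rcases hM.lt_or_eq with h | h
      · have hd : 0 < hmax A - hmin A := by linarith
        refine ⟨(x.2 - hmin A) / (hmax A - hmin A), ⟨by apply div_nonneg <;> linarith, ?_⟩, ?_⟩
        · rw [div_le_one hd]; linarith
        · rw [← sub_smul, smul_smul, div_mul_cancel₀ _ hd.ne', ← add_smul]
          conv_lhs => rw [hxe]
          congr 1; ring
      · refine ⟨0, ⟨le_rfl, zero_le_one⟩, ?_⟩
        have : x.2 = hmin A := by linarith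
        rw [zero_smul, add_zero, ← this]
        exact hxe

end Pool.Agent.V7H42.Fan
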