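import Pool.Agent.V7H42.Fan.Retr

set_option autoImplicit false

namespace Pool.Agent.V7H42.Fan

open TopologicalSpace Set Metric Filter Topology

variable {Z : Set ℝ} {A : NonemptyCompacts E}

theorem height_nonneg (hA : (A : Set E) ⊆ M₀ Z) : 0 ≤ hmin A := by
  obtain ⟨x, hx, h⟩ := exists_hmin A
  rw [← h]; exact (height_mem (hA hx)).1

theorem hmax_le_one (hA : (A : Set E) ⊆ M₀ Z) : hmax A ≤ 1 := by
  obtain ⟨x, hx, h⟩ := exists_hmax A
  rw [← h]; exact (height_mem (hA hx)).2

theorem hmin_le_hmax (A : NonemptyCompacts E) : hmin A ≤ hmax A := by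
  obtain ⟨x, hx, h⟩ := exists_hmin A
  rw [← h]; exact le_hmax hx

/-- norm of a multiple of `(z, 1)` -/
theorem norm_leg {z c : ℝ} (hz : |z| ≤ 1) : ‖c • ((z, 1) : E)‖ ≤ |c| := by
  rw [norm_smul, Real.norm_eq_abs]
  have : ‖((z, 1) : E)‖ ≤ 1 := by
    rw [Prod.norm_def]
    simp only [Real.norm_eq_abs, abs_one]
    exact max_le hz le_rfl
  nlinarith [abs_nonneg c, this]

/-- all sets in the family are near to the segment from the vertex to the top of the lowest leg -/
theorem near (hZ : Z ⊆ Icc (-1) 1) (hA : (A : Set E) ⊆ M₀ Z) (h0 : (0 : E) ∉ A)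
    (hw : zmax A - zmin A ≤ hmin A) {l : ℝ} (hl0 : 0 ≤ l) (hl3 : l ≤ 3) :
    hausdorffDist (Rl l (zmin A) (hmin A) (hmax A) A : Set E)
      (segC 0 (hmax A • ((zmin A, 1) : E)) : Set E) ≤ hmin A := by
  have hp := pos_of_subset hA h0
  have hm := hmin_pos hp
  have hM := hmin_le_hmax A
  have hM1 := hmax_le_one hA
  set z := zmin A with hz
  set m := hmin A with hmdef
  set M := hmax A with hMdef
  have hzZ := zmin_mem hA h0
  have hz1 : |z| ≤ 1 := abs_le.2 (hZ hzZ)
  have hleg : ∀ a ∈ A, a.2 ≤ M ∧ m ≤ a.2 ∧ a = a.2 • ((leg a, 1) : E) ∧ |leg a - z| ≤ m := by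
    intro a ha
    refine ⟨le_hmax ha, hmin_le ha, eq_leg (hp ha), ?_⟩
    have h1 := zmin_le hp ha
    have h2 := le_zmax hp ha
    rw [abs_of_nonneg (by linarith)]
    linarith
  -- the points of the star at stage `≥ 1`
  have hpt : ∀ a ∈ A, ∀ s : ℝ, 0 ≤ s → s ≤ 1 → dist (s • a) ((s * a.2) • ((z, 1) : E)) ≤ m := by
    intro a ha s hs0 hs1
    obtain ⟨h1, h2, h3, h4⟩ := hleg a ha
    have e : s • a - (s * a.2) • ((z, 1) : E) = ((s * a.2) * (leg a - z), (0 : ℝ)) := by
      conv_lhs => rw [h3]
      ext <;> simp <;> ring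
    rw [dist_eq_norm, e, Prod.norm_def]
    simp only [norm_zero, Real.norm_eq_abs]
    refine max_le ?_ hm.le
    rw [abs_mul]
    have h5 : |s * a.2| ≤ 1 := by
      rw [abs_of_nonneg (mul_nonneg hs0 (by linarith))]
      exact mul_le_one₀ hs1 (by linarith) (by linarith)
    calc |s * a.2| * |leg a - z| ≤ 1 * m := mul_le_mul h5 h4 (abs_nonneg _) zero_le_one
      _ = m := one_mul m
  have hS : ∀ c : ℝ, 0 ≤ c → c ≤ M → c • ((z, 1) : E) ∈ segC 0 (M • ((z, 1) : E)) := by
    intro c hc0 hcM
    rw [mem_segC]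
    have hM0 : 0 < M := by linarith
    refine ⟨c / M, ⟨by positivity, (div_le_one hM0).2 hcM⟩, ?_⟩
    rw [sub_zero, zero_add, smul_smul, div_mul_cancel₀ _ hM0.ne']
  have hsub : ∀ c c' : ℝ, c • ((z, 1) : E) - c' • ((z, 1) : E) = (c - c') • ((z, 1) : E) := by
    intro c c'; rw [sub_smul]
  have hc1 : 0 ≤ 1 - min l 1 := by have := min_le_right l 1; linarith
  have hc1' : 1 - min l 1 ≤ 1 := by
    have : 0 ≤ min l 1 := le_min hl0 zero_le_one
    linarith
  have hc2 : 0 ≤ 3 - max l 2 := by
    have : max l 2 ≤ 3 := max_le hl3 (by norm_num)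
    linarith
  have hc2' : 3 - max l 2 ≤ 1 := by have := le_max_right l 2; linarith
  refine hausdorffDist_le_of_mem_dist hm.le ?_ ?_
  · -- points of the set are near to the segment
    intro x hx
    rw [SetLike.mem_coe, Rl, mem_R] at hx
    rcases hx with hx | hx
    · refine ⟨x, ?_, by rw [dist_self]; exact hm.le⟩
      rw [mem_segC] at hx
      obtain ⟨t, ⟨ht0, ht1⟩, rfl⟩ := hx
      rw [hsub, smul_smul, ← add_smul]
      set α := (1 - min l 1) * m
      set β := (3 - max l 2) * M
      have hα0 : 0 ≤ α := by positivity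
      have hαM : α ≤ M := by
        calc α ≤ 1 * m := mul_le_mul_of_nonneg_right hc1' hm.le
          _ ≤ M := by linarith
      have hβ0 : 0 ≤ β := mul_nonneg hc2 (by linarith)
      have hβM : β ≤ M := by
        calc β ≤ 1 * M := mul_le_mul_of_nonneg_right hc2' (by linarith)
          _ = M := one_mul M
      apply hS
      · nlinarith
      · nlinarith
    · rw [mem_star] at hx
      obtain ⟨a, ha, t, ⟨ht0, ht1⟩, rfl⟩ := hx
      obtain ⟨h1, h2, h3, h4⟩ := hleg a ha
      rcases le_total l 1 with hl | hl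
      · have e1 : max 0 (min 1 (l - 1)) = 0 := max_eq_left (min_le_of_right_le (by linarith))
        rw [e1, mul_zero, zero_smul, add_zero]
        refine ⟨_, hS ((1 - min l 1) * m) (by positivity) ?_, by rw [dist_self]; exact hm.le⟩
        calc (1 - min l 1) * m ≤ 1 * m := mul_le_mul_of_nonneg_right hc1' hm.le
          _ ≤ M := by linarith
      · have e1 : (1 - min l 1) * m = 0 := by rw [min_eq_right hl]; ring
        rw [e1, zero_smul, zero_add]
        set μ := max 0 (min 1 (l - 1))
        have hμ0 : 0 ≤ μ := le_max_left _ _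
        have hμ1 : μ ≤ 1 := max_le zero_le_one (min_le_left _ _)
        have hs0 : 0 ≤ t * μ := mul_nonneg ht0 hμ0
        have hs1 : t * μ ≤ 1 := mul_le_one₀ ht1 hμ0 hμ1
        refine ⟨_, hS ((t * μ) * a.2) (mul_nonneg hs0 (by linarith)) ?_, hpt a ha _ hs0 hs1⟩
        nlinarith
  · -- points of the segment are near to the set
    intro x hx
    rw [SetLike.mem_coe, mem_segC] at hx
    obtain ⟨s, ⟨hs0, hs1⟩, rfl⟩ := hx
    rw [sub_zero, zero_add, smul_smul]
    have hM0 : 0 < M := by linarith
    rcases le_total l 2 with hl | hl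
    · have e1 : (3 - max l 2) * M = M := by rw [max_eq_right hl]; ring
      set α := (1 - min l 1) * m with hα
      have hα0 : 0 ≤ α := by positivity
      have hαm : α ≤ m := by
        calc α ≤ 1 * m := mul_le_mul_of_nonneg_right hc1' hm.le
          _ = m := one_mul m
      rcases le_total α (s * M) with h | h
      · refine ⟨(s * M) • ((z, 1) : E), ?_, by rw [dist_self]; exact hm.le⟩
        rw [SetLike.mem_coe, Rl, mem_R]
        left
        rw [← hα, e1, mem_segC]
        rcases (hαm.trans hM).lt_or_eq with h' | h'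
        · have hd : 0 < M - α := by linarith
          refine ⟨(s * M - α) / (M - α), ⟨by apply div_nonneg <;> linarith, ?_⟩, ?_⟩
          · rw [div_le_one hd]
            nlinarith
          · rw [hsub, smul_smul, ← add_smul, div_mul_cancel₀ _ hd.ne']
            congr 1; ring
        · refine ⟨0, ⟨le_rfl, zero_le_one⟩, ?_⟩
          have : s * M = α := by nlinarith
          rw [zero_smul, add_zero, this]
      · refine ⟨α • ((z, 1) : E), ?_, ?_⟩
        · rw [SetLike.mem_coe, Rl, mem_R]
          left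
          rw [← hα, mem_segC]
          exact ⟨0, ⟨le_rfl, zero_le_one⟩, by rw [zero_smul, add_zero]⟩
        · rw [dist_eq_norm, hsub]
          refine (norm_leg hz1).trans ?_
          have : 0 ≤ s * M := by positivity
          rw [abs_of_nonpos (by linarith)]
          linarith
    · obtain ⟨a, ha, haM⟩ := exists_hmax A
      refine ⟨s • a, ?_, ?_⟩
      · rw [SetLike.mem_coe, Rl, mem_R]
        right
        have e1 : (1 - min l 1) * m = 0 := by rw [min_eq_right (by linarith)]; ring
        have e2 : max 0 (min 1 (l - 1)) = 1 := by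
          rw [min_eq_left (by linarith)]; norm_num
        rw [e1, e2, mem_star]
        exact ⟨a, ha, s, ⟨hs0, hs1⟩, by rw [zero_smul, zero_add, mul_one]⟩
      · have := hpt a ha s hs0 hs1
        rw [haM] at this
        rw [dist_comm]
        exact this

/-- The key estimate. -/
theorem dist_r_r₂ (hZ : Z ⊆ Icc (-1) 1) (hA : (A : Set E) ⊆ M₀ Z) :
    dist (r A) (r₂ A) ≤ 2 * hmin A := by
  have hn := height_nonneg hA
  by_cases h0 : (0 : E) ∈ A
  · have : r A = r₂ A := by unfold r; rw [lam_of_mem h0, Rl_three]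
    rw [this, dist_self]; positivity
  · rcases le_total (zmax A - zmin A) (hmin A) with hw | hw
    · have h1 := near hZ hA h0 hw (lam_nonneg hA) lam_le
      have h2 := near hZ hA h0 hw (l := 3) (by norm_num) le_rfl
      rw [Rl_three] at h2
      have h3 : dist (r A) (segC 0 (hmax A • ((zmin A, 1) : E))) ≤ hmin A := h1
      have h4 : dist (r₂ A) (segC 0 (hmax A • ((zmin A, 1) : E))) ≤ hmin A := h2
      have h5 := dist_triangle_right (r A) (r₂ A) (segC 0 (hmax A • ((zmin A, 1) : E)))
      linarith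
    · have hm := hmin_pos (pos_of_subset hA h0)
      have : lam A = 3 := by
        rw [lam_of_not h0, min_eq_left ((one_le_div hm).2 hw)]; norm_num
      have : r A = r₂ A := by unfold r; rw [this, Rl_three]
      rw [this, dist_self]; positivity

theorem continuousWithinAt_r (hZ : Z ⊆ Icc (-1) 1) (hA : (A : Set E) ⊆ M₀ Z) :
    ContinuousWithinAt r {B : NonemptyCompacts E | (B : Set E) ⊆ M₀ Z} A := by
  by_cases h0 : (0 : E) ∈ A
  · have hmin0 : hmin A = 0 := by
      have h1 := hmin_le h0
      have h2 := height_nonneg hA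
      simp only [Prod.snd_zero] at h1
      linarith
    have hr : r A = r₂ A := by unfold r; rw [lam_of_mem h0, Rl_three]
    rw [ContinuousWithinAt, tendsto_iff_dist_tendsto_zero, hr]
    have h1 : Tendsto (fun B => 2 * hmin B + dist (r₂ B) (r₂ A))
        (𝓝[{B : NonemptyCompacts E | (B : Set E) ⊆ M₀ Z}] A) (𝓝 0) := by
      have h2 : Tendsto (fun B => 2 * hmin B + dist (r₂ B) (r₂ A)) (𝓝 A)
          (𝓝 (2 * hmin A + dist (r₂ A) (r₂ A))) :=
        ((continuous_hmin.const_mul 2).add
          (continuous_r₂.dist continuous_const)).continuousAt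
      rw [hmin0, dist_self, mul_zero, add_zero] at h2
      exact h2.mono_left nhdsWithin_le_nhds
    refine squeeze_zero' (Eventually.of_forall fun B => dist_nonneg) ?_ h1
    filter_upwards [self_mem_nhdsWithin] with B hB
    have h3 := dist_r_r₂ hZ hB
    have h4 := dist_triangle (r B) (r₂ B) (r₂ A)
    linarith
  · exact (continuousAt_r hA h0).continuousWithinAt

theorem continuousOn_r (hZ : Z ⊆ Icc (-1) 1) :
    ContinuousOn r {B : NonemptyCompacts E | (B : Set E) ⊆ M₀ Z} :=
  fun _ hA => continuousWithinAt_r hZ hA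

end Pool.Agent.V7H42.Fan
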