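import Mathlib

/-!
# A retraction of the hyperspace of a fan in the plane onto its subcontinua

`Z` is a compact totally disconnected set of reals in `[-1,1]`, the fan is
`M₀ Z = {(h z, h) : z ∈ Z, 0 ≤ h ≤ 1}`, its vertex is `0`.
-/

set_option autoImplicit false

namespace Pool.Agent.V7H42.Fan

open TopologicalSpace Set Metric Filter Topology

/-- The plane. -/
abbrev E : Type := ℝ × ℝ

/-- The fan over `Z`. -/
def M₀ (Z : Set ℝ) : Set E := {x | ∃ z ∈ Z, ∃ h ∈ Icc (0 : ℝ) 1, x = (h * z, h)}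

/-- The unit interval as a compact set. -/
noncomputable def I01 : NonemptyCompacts ℝ := ⟨⟨Icc 0 1, isCompact_Icc⟩, ⟨0, by simp⟩⟩

theorem mem_I01 {t : ℝ} : t ∈ (I01 : Set ℝ) ↔ 0 ≤ t ∧ t ≤ 1 := Iff.rfl

/-- The segment from `p` to `q`. -/
noncomputable def segC (p q : E) : NonemptyCompacts E :=
  I01.map (fun t : ℝ => p + t • (q - p)) (by fun_prop)

/-- The star `{p + t μ a : a ∈ A, 0 ≤ t ≤ 1}`. -/
noncomputable def star (p : E) (μ : ℝ) (A : NonemptyCompacts E) : NonemptyCompacts E :=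
  (A ×ˢ I01).map (fun x : E × ℝ => p + (x.2 * μ) • x.1) (by fun_prop)

theorem mem_segC {p q x : E} : x ∈ segC p q ↔ ∃ t : ℝ, (0 ≤ t ∧ t ≤ 1) ∧ x = p + t • (q - p) := by
  rw [← SetLike.mem_coe, segC, NonemptyCompacts.coe_map]
  constructor
  · rintro ⟨t, ht, rfl⟩
    exact ⟨t, mem_I01.1 ht, rfl⟩
  · rintro ⟨t, ht, rfl⟩
    exact ⟨t, mem_I01.2 ht, rfl⟩

theorem mem_star {p x : E} {μ : ℝ} {A : NonemptyCompacts E} :
    x ∈ star p μ A ↔ ∃ a ∈ A, ∃ t : ℝ, (0 ≤ t ∧ t ≤ 1) ∧ x = p + (t * μ) • a := by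
  rw [← SetLike.mem_coe, star, NonemptyCompacts.coe_map, NonemptyCompacts.coe_prod]
  constructor
  · rintro ⟨⟨a, t⟩, ⟨ha, ht⟩, rfl⟩
    exact ⟨a, ha, t, mem_I01.1 ht, rfl⟩
  · rintro ⟨a, ha, t, ht, rfl⟩
    exact ⟨(a, t), ⟨ha, mem_I01.2 ht⟩, rfl⟩

theorem continuous_segC : Continuous fun x : E × E => segC x.1 x.2 := by
  unfold segC
  fun_prop

theorem continuous_star :
    Continuous fun x : E × ℝ × NonemptyCompacts E => star x.1 x.2.1 x.2.2 := by
  unfold star
  fun_prop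

/-- The union of the segment and the star. -/
noncomputable def R (p q : E) (μ : ℝ) (A : NonemptyCompacts E) : NonemptyCompacts E :=
  segC p q ⊔ star p μ A

theorem continuous_R :
    Continuous fun x : E × E × ℝ × NonemptyCompacts E => R x.1 x.2.1 x.2.2.1 x.2.2.2 := by
  unfold R
  refine Continuous.sup ?_ ?_
  · exact continuous_segC.comp (continuous_fst.prodMk (continuous_fst.comp continuous_snd))
  · exact continuous_star.comp
      (f := fun x : E × E × ℝ × NonemptyCompacts E => (x.1, x.2.2.1, x.2.2.2)) (by fun_prop)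

theorem mem_R {p q x : E} {μ : ℝ} {A : NonemptyCompacts E} :
    x ∈ R p q μ A ↔ x ∈ segC p q ∨ x ∈ star p μ A := by
  rw [← SetLike.mem_coe, R, NonemptyCompacts.coe_sup]
  rfl

/-- The set with parameters: `l ∈ [0,3]` the stage, `z` the leg, `h₁ ≤ h₂` heights. -/
noncomputable def Rl (l z h₁ h₂ : ℝ) (A : NonemptyCompacts E) : NonemptyCompacts E :=
  R (((1 - min l 1) * h₁) • ((z, 1) : E)) (((3 - max l 2) * h₂) • ((z, 1) : E))
    (max 0 (min 1 (l - 1))) A

theorem continuous_Rl : Continuous fun x : ℝ × ℝ × ℝ × ℝ × NonemptyCompacts E =>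
    Rl x.1 x.2.1 x.2.2.1 x.2.2.2.1 x.2.2.2.2 := by
  unfold Rl
  exact continuous_R.comp (f := fun x : ℝ × ℝ × ℝ × ℝ × NonemptyCompacts E =>
    ((((1 - min x.1 1) * x.2.2.1) • ((x.2.1, 1) : E)),
      (((3 - max x.1 2) * x.2.2.2.1) • ((x.2.1, 1) : E)),
      (max 0 (min 1 (x.1 - 1))), x.2.2.2.2)) (by fun_prop)


/-- `sup f(A)` is continuous in `A` at the sets in an open set on which `f` is continuous. -/
theorem continuousAt_sSup {X : Type*} [TopologicalSpace X] {f : X → ℝ} {U : Set X}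
    (hU : IsOpen U) (hf : ContinuousOn f U) {A : NonemptyCompacts X} (hA : (A : Set X) ⊆ U) :
    ContinuousAt (fun B : NonemptyCompacts X => sSup (f '' (B : Set X))) A := by
  rw [Metric.continuousAt_iff']
  intro ε hε
  set s := sSup (f '' (A : Set X)) with hs
  have hcA : IsCompact (f '' (A : Set X)) := A.isCompact.image_of_continuousOn (hf.mono hA)
  have hneA : (f '' (A : Set X)).Nonempty := A.nonempty.image f
  have h1 : IsOpen (U ∩ f ⁻¹' Iio (s + ε / 2)) := hf.isOpen_inter_preimage hU isOpen_Iio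
  have h2 : IsOpen (U ∩ f ⁻¹' Ioi (s - ε)) := hf.isOpen_inter_preimage hU isOpen_Ioi
  have e1 := (NonemptyCompacts.isOpen_subsets_of_isOpen h1).mem_nhds (x := A) (by
    intro x hx
    refine ⟨hA hx, ?_⟩
    have : f x ≤ s := le_csSup hcA.bddAbove ⟨x, hx, rfl⟩
    simp only [mem_preimage, mem_Iio]
    linarith)
  have e2 := (NonemptyCompacts.isOpen_inter_nonempty_of_isOpen h2).mem_nhds (x := A) (by
    obtain ⟨x, hx, hxs⟩ := hcA.sSup_mem hneA
    refine ⟨x, hx, hA hx, ?_⟩
    simp only [mem_preimage, mem_Ioi]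
    rw [hxs]
    linarith)
  filter_upwards [e1, e2] with B hB1 hB2
  have hcB : IsCompact (f '' (B : Set X)) :=
    B.isCompact.image_of_continuousOn (hf.mono fun x hx => (hB1 hx).1)
  have hneB : (f '' (B : Set X)).Nonempty := B.nonempty.image f
  have u1 : sSup (f '' (B : Set X)) ≤ s + ε / 2 := by
    refine csSup_le hneB ?_
    rintro _ ⟨x, hx, rfl⟩
    exact (le_of_lt (hB1 hx).2)
  have u2 : s - ε < sSup (f '' (B : Set X)) := by
    obtain ⟨x, hx, -, hx2⟩ := hB2
    exact lt_of_lt_of_le hx2 (le_csSup hcB.bddAbove ⟨x, hx, rfl⟩)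
  rw [Real.dist_eq, abs_lt]
  constructor <;> linarith

/-- `inf f(A)` is continuous in `A` at the sets in an open set on which `f` is continuous. -/
theorem continuousAt_sInf {X : Type*} [TopologicalSpace X] {f : X → ℝ} {U : Set X}
    (hU : IsOpen U) (hf : ContinuousOn f U) {A : NonemptyCompacts X} (hA : (A : Set X) ⊆ U) :
    ContinuousAt (fun B : NonemptyCompacts X => sInf (f '' (B : Set X))) A := by
  have h := (continuousAt_sSup hU hf.neg hA).neg
  refine h.congr (Eventually.of_forall fun B => ?_)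
  have e : (fun x => -f x) '' (B : Set X) = -(f '' (B : Set X)) := by
    ext y
    simp only [mem_image, Set.mem_neg]
    constructor
    · rintro ⟨x, hx, rfl⟩
      exact ⟨x, hx, by simp⟩
    · rintro ⟨x, hx, hxy⟩
      exact ⟨x, hx, by simp [hxy]⟩
  change -sSup ((fun x => -f x) '' (B : Set X)) = sInf (f '' (B : Set X))
  rw [Real.sInf_def, e]

end Pool.Agent.V7H42.Fan
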