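import Pool.Agent.V7H42.Fan.Model

set_option autoImplicit false

namespace Pool.Agent.V7H42.Fan

open TopologicalSpace Set Metric Filter Topology

/-- lowest height -/
noncomputable def hmin (A : NonemptyCompacts E) : ℝ := sInf (Prod.snd '' (A : Set E))
/-- largest height -/
noncomputable def hmax (A : NonemptyCompacts E) : ℝ := sSup (Prod.snd '' (A : Set E))
/-- the leg of a point -/
noncomputable def leg (x : E) : ℝ := x.1 / x.2
/-- the least leg -/
noncomputable def zmin (A : NonemptyCompacts E) : ℝ := sInf (leg '' (A : Set E))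
/-- the largest leg -/
noncomputable def zmax (A : NonemptyCompacts E) : ℝ := sSup (leg '' (A : Set E))

open Classical in
/-- the stage at which `A` is treated -/
noncomputable def lam (A : NonemptyCompacts E) : ℝ :=
  if (0 : E) ∈ A then 3 else 3 * min 1 ((zmax A - zmin A) / hmin A)

/-- The retraction. -/
noncomputable def r (A : NonemptyCompacts E) : NonemptyCompacts E :=
  Rl (lam A) (zmin A) (hmin A) (hmax A) A

/-- The union of the segments from the vertex to the points of `A`. -/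
noncomputable def r₂ (A : NonemptyCompacts E) : NonemptyCompacts E := Rl 3 0 0 0 A

theorem continuous_r₂ : Continuous r₂ := by
  unfold r₂
  exact continuous_Rl.comp (f := fun A : NonemptyCompacts E => ((3 : ℝ), (0 : ℝ), (0 : ℝ), (0 : ℝ), A))
    (by fun_prop)

theorem Rl_three (z h₁ h₂ : ℝ) (A : NonemptyCompacts E) : Rl 3 z h₁ h₂ A = r₂ A := by
  have h1 : ((1 : ℝ) - min 3 1) = 0 := by norm_num
  have h2 : ((3 : ℝ) - max 3 2) = 0 := by norm_num
  unfold r₂ Rl
  rw [h1, h2]
  simp

theorem continuous_hmin : Continuous hmin := by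
  rw [continuous_iff_continuousAt]
  intro A
  exact continuousAt_sInf isOpen_univ continuous_snd.continuousOn (subset_univ _)

theorem continuous_hmax : Continuous hmax := by
  rw [continuous_iff_continuousAt]
  intro A
  exact continuousAt_sSup isOpen_univ continuous_snd.continuousOn (subset_univ _)

theorem isOpen_pos : IsOpen {x : E | 0 < x.2} := isOpen_lt continuous_const continuous_snd

theorem leg_contOn : ContinuousOn leg {x : E | 0 < x.2} := by
  unfold leg
  exact ContinuousOn.div continuous_fst.continuousOn continuous_snd.continuousOn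
    (fun x hx => (ne_of_gt hx))

theorem continuousAt_zmin {A : NonemptyCompacts E} (hA : (A : Set E) ⊆ {x | 0 < x.2}) :
    ContinuousAt zmin A := continuousAt_sInf isOpen_pos leg_contOn hA

theorem continuousAt_zmax {A : NonemptyCompacts E} (hA : (A : Set E) ⊆ {x | 0 < x.2}) :
    ContinuousAt zmax A := continuousAt_sSup isOpen_pos leg_contOn hA

section

variable {Z : Set ℝ}

theorem pos_of_mem {x : E} (hx : x ∈ M₀ Z) (h0 : x ≠ 0) : 0 < x.2 := by
  obtain ⟨z, hz, h, hh, rfl⟩ := hx
  rcases hh.1.lt_or_eq with h1 | h1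
  · exact h1
  · exfalso; apply h0; rw [← h1]; simp

theorem eq_leg {x : E} (hx : 0 < x.2) : x = x.2 • ((leg x, 1) : E) := by
  ext
  · simp only [leg, Prod.smul_mk, smul_eq_mul]
    field_simp
  · simp

theorem leg_mem {x : E} (hx : x ∈ M₀ Z) (h0 : 0 < x.2) : leg x ∈ Z := by
  obtain ⟨z, hz, h, hh, rfl⟩ := hx
  have : leg (h * z, h) = z := by
    unfold leg
    simp only at h0 ⊢
    field_simp
  rwa [this]

theorem height_mem {x : E} (hx : x ∈ M₀ Z) : x.2 ∈ Icc (0 : ℝ) 1 := by
  obtain ⟨z, hz, h, hh, rfl⟩ := hx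
  exact hh

theorem smul_mem_M₀ {z h : ℝ} (hz : z ∈ Z) (h0 : 0 ≤ h) (h1 : h ≤ 1) :
    h • ((z, 1) : E) ∈ M₀ Z := ⟨z, hz, h, ⟨h0, h1⟩, by simp⟩

theorem star_M₀ {x : E} (hx : x ∈ M₀ Z) {t : ℝ} (h0 : 0 ≤ t) (h1 : t ≤ 1) : t • x ∈ M₀ Z := by
  obtain ⟨z, hz, h, hh, rfl⟩ := hx
  refine ⟨z, hz, t * h, ⟨mul_nonneg h0 hh.1, ?_⟩, ?_⟩
  · exact mul_le_one₀ h1 hh.1 hh.2
  · ext <;> simp [mul_assoc]

variable {A : NonemptyCompacts E}

theorem pos_of_subset (hA : (A : Set E) ⊆ M₀ Z) (h0 : (0 : E) ∉ A) :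
    (A : Set E) ⊆ {x | 0 < x.2} := by
  intro x hx
  exact pos_of_mem (hA hx) (by rintro rfl; exact h0 hx)

theorem hcompact (A : NonemptyCompacts E) : IsCompact (Prod.snd '' (A : Set E)) :=
  A.isCompact.image continuous_snd

theorem hmin_le {x : E} (hx : x ∈ A) : hmin A ≤ x.2 :=
  csInf_le (hcompact A).bddBelow ⟨x, hx, rfl⟩

theorem le_hmax {x : E} (hx : x ∈ A) : x.2 ≤ hmax A :=
  le_csSup (hcompact A).bddAbove ⟨x, hx, rfl⟩

theorem exists_hmin (A : NonemptyCompacts E) : ∃ x ∈ A, x.2 = hmin A := by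
  obtain ⟨x, hx, h⟩ := (hcompact A).sInf_mem (A.nonempty.image _)
  exact ⟨x, hx, h⟩

theorem exists_hmax (A : NonemptyCompacts E) : ∃ x ∈ A, x.2 = hmax A := by
  obtain ⟨x, hx, h⟩ := (hcompact A).sSup_mem (A.nonempty.image _)
  exact ⟨x, hx, h⟩

theorem zcompact (hA : (A : Set E) ⊆ {x | 0 < x.2}) : IsCompact (leg '' (A : Set E)) :=
  A.isCompact.image_of_continuousOn (leg_contOn.mono hA)

theorem zmin_le (hA : (A : Set E) ⊆ {x | 0 < x.2}) {x : E} (hx : x ∈ A) : zmin A ≤ leg x :=
  csInf_le (zcompact hA).bddBelow ⟨x, hx, rfl⟩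

theorem le_zmax (hA : (A : Set E) ⊆ {x | 0 < x.2}) {x : E} (hx : x ∈ A) : leg x ≤ zmax A :=
  le_csSup (zcompact hA).bddAbove ⟨x, hx, rfl⟩

theorem exists_zmin (hA : (A : Set E) ⊆ {x | 0 < x.2}) : ∃ x ∈ A, leg x = zmin A := by
  obtain ⟨x, hx, h⟩ := (zcompact hA).sInf_mem (A.nonempty.image _)
  exact ⟨x, hx, h⟩

theorem hmin_pos (hA : (A : Set E) ⊆ {x | 0 < x.2}) : 0 < hmin A := by
  obtain ⟨x, hx, h⟩ := exists_hmin A
  rw [← h]; exact hA hx

theorem zmin_mem (hA : (A : Set E) ⊆ M₀ Z) (h0 : (0 : E) ∉ A) : zmin A ∈ Z := by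
  obtain ⟨x, hx, h⟩ := exists_zmin (pos_of_subset hA h0)
  rw [← h]
  exact leg_mem (hA hx) (pos_of_subset hA h0 hx)

theorem lam_of_not (h0 : (0 : E) ∉ A) : lam A = 3 * min 1 ((zmax A - zmin A) / hmin A) := by
  unfold lam; rw [if_neg h0]

theorem lam_of_mem (h0 : (0 : E) ∈ A) : lam A = 3 := by
  unfold lam; rw [if_pos h0]

theorem lam_nonneg (hA : (A : Set E) ⊆ M₀ Z) : 0 ≤ lam A := by
  by_cases h0 : (0 : E) ∈ A
  · rw [lam_of_mem h0]; norm_num
  · rw [lam_of_not h0]
    have hp := pos_of_subset hA h0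
    obtain ⟨x, hx, h⟩ := exists_zmin hp
    have h1 := le_zmax hp hx
    have h2 := hmin_pos hp
    have : 0 ≤ (zmax A - zmin A) / hmin A := div_nonneg (by linarith) h2.le
    positivity

theorem lam_le : lam A ≤ 3 := by
  by_cases h0 : (0 : E) ∈ A
  · rw [lam_of_mem h0]
  · rw [lam_of_not h0]
    have := min_le_left (1 : ℝ) ((zmax A - zmin A) / hmin A)
    linarith

/-- Continuity at sets that do not contain the vertex. -/
theorem continuousAt_r (hA : (A : Set E) ⊆ M₀ Z) (h0 : (0 : E) ∉ A) : ContinuousAt r A := by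
  have hp := pos_of_subset hA h0
  have hm := hmin_pos hp
  have hlam : ContinuousAt lam A := by
    have h1 : ContinuousAt (fun B => 3 * min 1 ((zmax B - zmin B) / hmin B)) A := by
      have := continuousAt_zmin hp
      have := continuousAt_zmax hp
      have := continuous_hmin.continuousAt (x := A)
      have h2 : ContinuousAt (fun B => (zmax B - zmin B) / hmin B) A := by
        refine ContinuousAt.div (by fun_prop) (by fun_prop) hm.ne'
      exact (continuousAt_const.min h2).const_mul 3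
    refine h1.congr ?_
    have hopen : IsOpen ({0}ᶜ : Set E) := isOpen_compl_singleton
    filter_upwards [(NonemptyCompacts.isOpen_subsets_of_isOpen hopen).mem_nhds (x := A) (by
      intro x hx hx0
      rw [mem_singleton_iff] at hx0
      subst hx0
      exact h0 hx)] with B hB
    rw [lam_of_not]
    intro h
    exact hB h rfl
  have h3 : ContinuousAt (fun B => (lam B, zmin B, hmin B, hmax B, B)) A :=
    hlam.prodMk ((continuousAt_zmin hp).prodMk ((continuous_hmin.continuousAt).prodMk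
      ((continuous_hmax.continuousAt).prodMk continuousAt_id)))
  exact continuous_Rl.continuousAt.comp (f := fun B => (lam B, zmin B, hmin B, hmax B, B)) h3

end

end Pool.Agent.V7H42.Fan
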