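import Pool.Agent.V7H42.Fan.Cone

set_option autoImplicit false

namespace Pool.Agent.V7H42.Fan

open TopologicalSpace Set Metric Filter Topology

variable {Z : Type} [TopologicalSpace Z]

theorem cone_connected [Nonempty Z] : ConnectedSpace (Cone Z) := by
  obtain ⟨z₀⟩ := ‹Nonempty Z›
  have h : IsPreconnected (univ : Set (Cone Z)) := by
    refine isPreconnected_of_forall (Quotient.mk (coneSetoid Z) (z₀, 1)) ?_
    intro y _
    induction y using Quotient.inductionOn with | _ p =>
    refine ⟨(fun t : unitInterval => Quotient.mk (coneSetoid Z) (p.1, t)) '' univ, subset_univ _,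
      ⟨1, mem_univ _, ?_⟩, ⟨p.2, mem_univ _, rfl⟩, ?_⟩
    · exact Quotient.sound (Or.inr ⟨rfl, rfl⟩)
    · refine isPreconnected_univ.image _ ?_
      exact (continuous_quotient_mk'.comp (by fun_prop)).continuousOn
  exact { toPreconnectedSpace := ⟨h⟩, toNonempty := ⟨Quotient.mk (coneSetoid Z) (z₀, 1)⟩ }

/-- The cone over a totally disconnected compact space with a non-isolated point is not locally
connected. -/
theorem cone_not_locallyConnected [CompactSpace Z] {φ : Z → ℝ} (hφ : Continuous φ)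
    (hφi : Function.Injective φ) [TotallyDisconnectedSpace Z] (z₀ : Z) (hz₀ : (𝓝[≠] z₀).NeBot) :
    ¬ LocallyConnectedSpace (Cone Z) := by
  intro hlc
  have hZt : IsTotallyDisconnected (range φ) :=
    (hφ.isClosedEmbedding hφi).isEmbedding.isTotallyDisconnected_range.2 inferInstance
  let P : Cone Z := Quotient.mk (coneSetoid Z) (z₀, 0)
  have hcont := continuous_toPlane hφ
  have hopen : IsOpen ((toPlane φ) ⁻¹' {x : E | 0 < x.2}) := isOpen_pos.preimage hcont
  have hP : P ∈ (toPlane φ) ⁻¹' {x : E | 0 < x.2} := by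
    show 0 < (toPlane φ P).2
    rw [show toPlane φ P = _ from toPlane_mk φ (z₀, 0)]
    simp
  obtain ⟨V, hVs, hVo, hPV, hVc⟩ :=
    locallyConnectedSpace_iff_subsets_isOpen_isConnected.1 hlc P _ (hopen.mem_nhds hP)
  have hsub : ((fun x => leg (toPlane φ x)) '' V).Subsingleton := by
    refine hZt _ ?_ (hVc.isPreconnected.image _ ?_)
    · rintro _ ⟨x, hx, rfl⟩
      have h1 : toPlane φ x ∈ M₀ (range φ) := by rw [← range_toPlane]; exact ⟨x, rfl⟩
      exact leg_mem h1 (hVs hx)
    · exact leg_contOn.comp hcont.continuousOn hVs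
  -- points of the base near `z₀` are in `V`
  let b : Z → Cone Z := fun z => Quotient.mk (coneSetoid Z) (z, 0)
  have hb : Continuous b := continuous_quotient_mk'.comp (by fun_prop)
  have hleg : ∀ z, leg (toPlane φ (b z)) = φ z := by
    intro z
    rw [show toPlane φ (b z) = _ from toPlane_mk φ (z, 0)]
    simp [leg]
  have hev : ∀ᶠ z in 𝓝[≠] z₀, b z ∈ V :=
    (hb.continuousAt.eventually (hVo.mem_nhds hPV)).filter_mono nhdsWithin_le_nhds
  obtain ⟨z, hz1, hz2⟩ := (hev.and self_mem_nhdsWithin).exists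
  apply hz2
  apply hφi
  rw [← hleg z, ← hleg z₀]
  exact hsub ⟨_, hz1, rfl⟩ ⟨_, hPV, rfl⟩

/-- A space with one limit point only is totally disconnected. -/
theorem totallyDisconnected_of_one [T1Space Z] (h : ∃! z : Z, (𝓝[≠] z).NeBot) :
    TotallyDisconnectedSpace Z := by
  obtain ⟨z₀, -, hz⟩ := h
  have hiso : ∀ z, z ≠ z₀ → IsClopen ({z} : Set Z) := by
    intro z hne
    refine ⟨isClosed_singleton, ?_⟩
    rw [isOpen_singleton_iff_punctured_nhds]
    by_contra h
    exact hne (hz z ⟨h⟩)
  refine ⟨fun t _ ht x hx y hy => ?_⟩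
  by_contra hxy
  rcases eq_or_ne x z₀ with h | h
  · have hy0 : y ≠ z₀ := by rintro rfl; exact hxy h
    have := ht.subset_isClopen (hiso y hy0) ⟨y, hy, rfl⟩ hx
    exact hxy this
  · have := ht.subset_isClopen (hiso x h) ⟨x, hx, rfl⟩ hy
    exact hxy this.symm

end Pool.Agent.V7H42.Fan
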